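import Pool.Agent.N177.CL.Exists

/-!
# MP_e6bb1c_ag: the curious Lefschetz property fails for the varieties `𝒰(β)` and `𝒵(β)`

Let `G = SL_2` over a finite field `𝔽`, with Weyl group `W = {1, s}` and positive braid monoid
generated by `σ = σ_s`. For all even `n ≥ 0` (for example `n = 0`, where `𝒰(1)` is the Springer
resolution `T^* ℙ¹` and `𝒵(1)` is the Steinberg variety, or `n = 2`, where `β = σ²` is the full twist)
the curious Lefschetz property fails for `𝒰(σ^n)` and for `𝒵(σ^n)`, varieties of dimension `d = n + 2`.

The numbers of points over a field with `Q` elements are `Q^(n + 2) + (-1)^n Q` and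
`Q (Q + 1) (Q^n + (-1)^n)`. By the trace formula of Grothendieck and Lefschetz the virtual dimension
of the part of weight `2 (n + 2) = 2 d` of the cohomology with compact supports is not zero, but the
virtual dimension of the part of weight `0` is zero. The curious Lefschetz property (for `k = d / 2`)
would imply that these two numbers are equal.
-/

set_option autoImplicit false

namespace Pool.Agent.Results.MP_e6bb1c_ag.CuriousLefschetzFails

open Pool.Agent.N177.CL

/-- **The curious Lefschetz property fails for `𝒰(σ^n)` and for `𝒵(σ^n)`** for `G = SL_2` over every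
finite field, and every even `n`: if `C` is the cohomology with compact supports, with coefficients in
`Ω = \bar ℚ_ℓ`, of one of these varieties of dimension `n + 2`, there is no operator `L` of degree two
on `C`, such as the cup product with a class `ω` of degree two, such that `L^k` induces isomorphisms
`gr^w_(d - 2 k) H^i ⟶ gr^w_(d + 2 k) H^(i + 2 k)` for all `i` and all `k ≥ 0`, `d = n + 2`. -/
theorem result (𝔽 : Type) [Field 𝔽] [Finite 𝔽] (Ω : Type) [Field Ω] [CharZero Ω] [IsAlgClosed Ω]
    (n : ℕ) (hn : Even n) (C : FrobeniusModules Ω)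
    (hC : IsCompactCohomology 𝔽 (UPoints n) C ∨ IsCompactCohomology 𝔽 (ZPoints n) C) :
    ¬ C.CuriousLefschetz (Nat.card 𝔽) (n + 2) :=
  hC.elim (not_curious_U hn) (not_curious_Z hn)

/-- Sanity check: the hypothesis on `C` can be satisfied. -/
theorem exists_example (𝔽 : Type) [Field 𝔽] [Finite 𝔽] (Ω : Type) [Field Ω] [CharZero Ω]
    (n : ℕ) (hn : Even n) :
    ∃ C : FrobeniusModules Ω, IsCompactCohomology 𝔽 (UPoints n) C :=
  exists_cohomology 𝔽 Ω hn

end Pool.Agent.Results.MP_e6bb1c_ag.CuriousLefschetzFails
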